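import Pool.Agent.NKL.MA2

set_option autoImplicit false

/-!
# MP_931b60_co, Q1: the column bound is attained on all large grids, for every `k ≥ 4`

For every integer `k ≥ 4` there is `N₀` such that for all `N ≥ N₀` the `N × N` grid contains
`(k - 1) N` points with no `k` of them on a line; that is, `m_k(N) = (k - 1) N`.
-/

namespace Pool.Agent.Results.MP_931b60_co.ColumnBoundFour

/-- the grid `{0, 1, ..., N - 1}²` -/
noncomputable def grid (N : ℕ) : Finset (ℤ × ℤ) := Finset.Ico (0 : ℤ) N ×ˢ Finset.Ico (0 : ℤ) N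

/-- no `k` different points of `S` lie on one line `a x + b y = c` of the real plane -/
def KFree (k : ℕ) (S : Finset (ℤ × ℤ)) : Prop :=
  ∀ a b c : ℝ, (a ≠ 0 ∨ b ≠ 0) → (S.filter fun p => a * (p.1 : ℝ) + b * (p.2 : ℝ) = c).card < k

/-- the largest size of a `k`-free subset of the `N × N` grid -/
noncomputable def m (k N : ℕ) : ℕ := sSup {n | ∃ S ⊆ grid N, KFree k S ∧ S.card = n}

theorem result : ∀ k : ℕ, 4 ≤ k → ∃ N₀ : ℕ, ∀ N : ℕ, N₀ ≤ N → m k N = (k - 1) * N := by
  intro k hk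
  obtain ⟨s, rfl⟩ : ∃ s, k = s + 1 := ⟨k - 1, by omega⟩
  obtain ⟨N₀, hN₀⟩ := NKL.main2 s (by omega)
  exact ⟨N₀, fun N hN => hN₀ N hN⟩

end Pool.Agent.Results.MP_931b60_co.ColumnBoundFour
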