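import Pool.Agent.NKL.K3Z

set_option autoImplicit false

/-!
# MP_931b60_co, Q1: every `k ≥ 1000` is good

For every integer `k ≥ 1000` and every `N ≥ k` the `N × N` grid contains `(k - 1) N` points with no
`k` of them on a line; that is, `m_k(N) = (k - 1) N` for all `N ≥ k`.
-/

namespace Pool.Agent.Results.MP_931b60_co.GoodFromThousand

/-- the grid `{0, 1, ..., N - 1}²` -/
noncomputable def grid (N : ℕ) : Finset (ℤ × ℤ) :=
  Finset.Ico (0 : ℤ) N ×ˢ Finset.Ico (0 : ℤ) N

/-- no `k` different points of `S` lie on one line `a x + b y = c` of the real plane -/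
def KFree (k : ℕ) (S : Finset (ℤ × ℤ)) : Prop :=
  ∀ a b c : ℝ, (a ≠ 0 ∨ b ≠ 0) → (S.filter fun p => a * (p.1 : ℝ) + b * (p.2 : ℝ) = c).card < k

/-- the largest size of a `k`-free subset of the `N × N` grid -/
noncomputable def m (k N : ℕ) : ℕ := sSup {n | ∃ S ⊆ grid N, KFree k S ∧ S.card = n}

/-- `k` is good: the column bound is attained on every grid with `N ≥ k` -/
def Good (k : ℕ) : Prop := ∀ N : ℕ, k ≤ N → m k N = (k - 1) * N

theorem result : ∀ k : ℕ, 1000 ≤ k → Good k := by
  intro k hk N hN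
  obtain ⟨s, rfl⟩ : ∃ s, k = s + 1 := ⟨k - 1, by omega⟩
  exact NKL.main3 (s := s) (N := N) (by omega) (by omega)

end Pool.Agent.Results.MP_931b60_co.GoodFromThousand
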